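import Pool.Agent.Lib.MP_85963d_gt.H51.LincDefs
import Pool.Agent.Lib.MP_85963d_gt.H98.WS

/-!
# CWEIGHT: the weights for complex parameters (part of module LINC)
-/

set_option autoImplicit false

open MeasureTheory Filter Topology Set Metric Quaternion
open scoped Real ContDiff

namespace Pool.Agent.MP85963d.H5

open SF H51 H98

/-! ### explicit formulas -/

noncomputable section

def PP (s : ℂ) (a : ℝ) : ℂ := (1 - s) + s * a
def NN (s : ℂ) (a c : ℝ) : ℂ := PP s a + s * c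
def GG (s : ℂ) (a b : ℝ) : ℂ := PP s a ^ 2 + (s * b) ^ 2
def Wf (s : ℂ) (a b c : ℝ) : ℂ := NN s a c * GG s a b ^ (-3 / 2 : ℂ)
def W1f (s : ℂ) (a b c : ℝ) : ℂ :=
  ((a - 1 : ℂ) + c) * GG s a b ^ (-3 / 2 : ℂ) + NN s a c * ((-3 / 2 : ℂ) *
    GG s a b ^ ((-3 / 2 : ℂ) - 1) * (2 * PP s a * (a - 1) + 2 * (s * b) * b))
def WVf (s : ℂ) (a b c b' c' : ℝ) : ℂ :=
  (s * c') * GG s a b ^ (-3 / 2 : ℂ) + NN s a c * ((-3 / 2 : ℂ) *
    GG s a b ^ ((-3 / 2 : ℂ) - 1) * (2 * (s * b) * (s * b')))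

theorem hasDerivAt_Wf_s {s : ℂ} {a b c : ℝ} (h : 0 < (GG s a b).re) :
    HasDerivAt (fun s => Wf s a b c) (W1f s a b c) s := by
  have hP : HasDerivAt (fun s : ℂ => PP s a) (a - 1 : ℂ) s := by
    have := ((hasDerivAt_id s).const_sub 1).add ((hasDerivAt_id s).mul_const (a : ℂ))
    refine this.congr_deriv ?_
    ring
  have hN : HasDerivAt (fun s : ℂ => NN s a c) ((a - 1 : ℂ) + c) s := by
    have := hP.add ((hasDerivAt_id s).mul_const (c : ℂ))
    refine this.congr_deriv ?_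
    ring
  have hG : HasDerivAt (fun s : ℂ => GG s a b) (2 * PP s a * (a - 1) + 2 * (s * b) * b) s := by
    have := (hP.pow 2).add (((hasDerivAt_id s).mul_const (b : ℂ)).pow 2)
    refine this.congr_deriv ?_
    simp
  have hc := hG.cpow_const (c := (-3 / 2 : ℂ)) (Or.inl h)
  refine (hN.mul hc).congr_deriv ?_
  unfold W1f
  ring

theorem hasDerivAt_Wf_t {s : ℂ} {a : ℝ} {b c : ℝ → ℝ} {b' c' t : ℝ}
    (hb : HasDerivAt b b' t) (hc : HasDerivAt c c' t) (h : 0 < (GG s a (b t)).re) :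
    HasDerivAt (fun t => Wf s a (b t) (c t)) (WVf s a (b t) (c t) b' c') t := by
  have hb1 : HasDerivAt (fun t => ((b t : ℝ) : ℂ)) (b' : ℂ) t := hb.ofReal_comp
  have hc1 : HasDerivAt (fun t => ((c t : ℝ) : ℂ)) (c' : ℂ) t := hc.ofReal_comp
  have hN : HasDerivAt (fun t : ℝ => NN s a (c t)) (s * c') t := by
    have := (hasDerivAt_const t (PP s a)).add (hc1.const_mul s)
    refine this.congr_deriv ?_
    ring
  have hG : HasDerivAt (fun t : ℝ => GG s a (b t)) (2 * (s * b t) * (s * b')) t := by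
    have := (hasDerivAt_const t (PP s a ^ 2)).add ((hb1.const_mul s).pow 2)
    refine this.congr_deriv ?_
    simp
  have hcp : HasDerivAt (fun z : ℂ => z ^ (-3 / 2 : ℂ))
      ((-3 / 2 : ℂ) * GG s a (b t) ^ ((-3 / 2 : ℂ) - 1) * 1) (GG s a (b t)) :=
    (hasDerivAt_id _).cpow_const (Or.inl h)
  have hc2 := hcp.scomp t hG
  refine (hN.mul hc2).congr_deriv ?_
  unfold WVf
  simp only [Function.comp, smul_eq_mul, mul_one]
  ring

/-! ### continuity and compactness -/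

/-- all relevant quantities -/
def Phi (z : ℂ × (Fin 5 → ℝ)) : ℝ × ℂ × ℂ × ℂ :=
  ((GG z.1 (z.2 0) (z.2 1)).re, Wf z.1 (z.2 0) (z.2 1) (z.2 2), W1f z.1 (z.2 0) (z.2 1) (z.2 2),
    WVf z.1 (z.2 0) (z.2 1) (z.2 2) (z.2 3) (z.2 4))

theorem continuousAt_Phi {z : ℂ × (Fin 5 → ℝ)} (h : 0 < (GG z.1 (z.2 0) (z.2 1)).re) :
    ContinuousAt Phi z := by
  have hP : Continuous fun z : ℂ × (Fin 5 → ℝ) => PP z.1 (z.2 0) := by
    unfold PP; fun_prop
  have hN : Continuous fun z : ℂ × (Fin 5 → ℝ) => NN z.1 (z.2 0) (z.2 2) := by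
    unfold NN; fun_prop
  have hG : Continuous fun z : ℂ × (Fin 5 → ℝ) => GG z.1 (z.2 0) (z.2 1) := by
    unfold GG; fun_prop
  have hs : GG z.1 (z.2 0) (z.2 1) ∈ Complex.slitPlane := Or.inl h
  have hc1 : ContinuousAt (fun z : ℂ × (Fin 5 → ℝ) => GG z.1 (z.2 0) (z.2 1) ^ (-3 / 2 : ℂ)) z :=
    hG.continuousAt.cpow continuousAt_const hs
  have hc2 : ContinuousAt (fun z : ℂ × (Fin 5 → ℝ) =>
      GG z.1 (z.2 0) (z.2 1) ^ ((-3 / 2 : ℂ) - 1)) z :=
    hG.continuousAt.cpow continuousAt_const hs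
  have hre : Continuous fun z : ℂ × (Fin 5 → ℝ) => (GG z.1 (z.2 0) (z.2 1)).re :=
    Complex.continuous_re.comp hG
  refine hre.continuousAt.prodMk ((hN.continuousAt.mul hc1).prodMk (ContinuousAt.prodMk ?_ ?_))
  · have h1 : Continuous fun z : ℂ × (Fin 5 → ℝ) => (((z.2 0 : ℝ) : ℂ) - 1 + ((z.2 2 : ℝ) : ℂ)) := by
      fun_prop
    have h2 : Continuous fun z : ℂ × (Fin 5 → ℝ) =>
        (2 * PP z.1 (z.2 0) * (z.2 0 - 1) + 2 * (z.1 * z.2 1) * z.2 1 : ℂ) := by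
      fun_prop
    exact (h1.continuousAt.mul hc1).add
      (hN.continuousAt.mul ((continuousAt_const.mul hc2).mul h2.continuousAt))
  · have h1 : Continuous fun z : ℂ × (Fin 5 → ℝ) => (z.1 * ((z.2 4 : ℝ) : ℂ)) := by
      fun_prop
    have h2 : Continuous fun z : ℂ × (Fin 5 → ℝ) =>
        (2 * (z.1 * z.2 1) * (z.1 * z.2 3) : ℂ) := by
      fun_prop
    exact (h1.continuousAt.mul hc1).add
      (hN.continuousAt.mul ((continuousAt_const.mul hc2).mul h2.continuousAt))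

/-- the data of `p` at `x` -/
def kap (p : SF) (x : ℍ) : Fin 5 → ℝ :=
  ![p x, (DX p) x, (DX (DX p)) x, (DV (DX p)) x, (DV (DX (DX p))) x]

theorem kap_continuousOn (p : SF) : ContinuousOn (kap p) {0}ᶜ := by
  rw [continuousOn_pi]
  intro i
  fin_cases i
  · exact p.continuousOn
  · exact (DX p).continuousOn
  · exact (DX (DX p)).continuousOn
  · exact (DV (DX p)).continuousOn
  · exact (DV (DX (DX p))).continuousOn

theorem kap_hom (p : SF) {r : ℝ} (hr : r ≠ 0) (x : ℍ) : kap p (r • x) = kap p x := by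
  simp only [kap, SF.hom _ hr]

/-- the compact set of parameters -/
def KK (p : SF) : Set (ℂ × (Fin 5 → ℝ)) :=
  (Complex.ofReal '' Icc (0:ℝ) 1) ×ˢ (kap p '' sphere (0:ℍ) 1)

theorem isCompact_KK (p : SF) : IsCompact (KK p) := by
  refine IsCompact.prod (isCompact_Icc.image Complex.continuous_ofReal)
    ((isCompact_sphere (0:ℍ) 1).image_of_continuousOn ((kap_continuousOn p).mono ?_))
  intro x hx h0
  rw [mem_singleton_iff] at h0
  subst h0
  simp at hx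

theorem mem_KK (p : SF) {r : ℝ} (hr : r ∈ Icc (0:ℝ) 1) {x : ℍ} (hx : x ≠ 0) :
    ((r : ℂ), kap p x) ∈ KK p := by
  refine ⟨⟨r, hr, rfl⟩, ⟨‖x‖⁻¹ • x, ?_, ?_⟩⟩
  · rw [mem_sphere_zero_iff_norm, norm_smul, norm_inv, norm_norm]
    exact inv_mul_cancel₀ (norm_ne_zero_iff.2 hx)
  · exact kap_hom p (inv_ne_zero (norm_ne_zero_iff.2 hx)) x

theorem GG_real (r a b : ℝ) : GG (r : ℂ) a b = (((1 - r + r * a) ^ 2 + (r * b) ^ 2 : ℝ) : ℂ) := by
  unfold GG PP; push_cast; ring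

theorem GG_pos {p : SF} (hp : Adm p) : ∀ z ∈ KK p, 0 < (GG z.1 (z.2 0) (z.2 1)).re := by
  rintro ⟨s, k⟩ ⟨⟨r, hr, hrs⟩, ⟨x, hx, hxk⟩⟩
  simp only at hrs hxk ⊢
  subst hrs hxk
  have hx0 : x ≠ 0 := by
    rintro rfl
    simp at hx
  rw [GG_real, Complex.ofReal_re]
  have h1 : kap p x 0 = p x := rfl
  rw [h1]
  have h2 : 0 < (1 - r) * 1 + r * p x := comb_pos one_pos (hp.pos x hx0) hr
  have : 0 < 1 - r + r * p x := by linarith
  positivity

/-! ### the real weight -/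

theorem rpow_aux {g : ℝ} (hg : 0 < g) : g ^ (-3 / 2 : ℝ) = (Real.sqrt g ^ 3)⁻¹ := by
  rw [Real.sqrt_eq_rpow, ← Real.rpow_natCast, ← Real.rpow_mul hg.le, ← Real.rpow_neg hg.le]
  norm_num

theorem Wf_real {p : SF} (hp : Adm p) {r : ℝ} (hr : r ∈ Icc (0:ℝ) 1) {x : ℍ} (hx : x ≠ 0) :
    Wf (r : ℂ) (p x) ((DX p) x) ((DX (DX p)) x) = (wf (seg 1 p r) x : ℂ) := by
  have h2 : 0 < (1 - r) * 1 + r * p x := comb_pos one_pos (hp.pos x hx) hr
  have hP : 0 < 1 - r + r * p x := by linarith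
  have hG : 0 < (1 - r + r * p x) ^ 2 + (r * (DX p) x) ^ 2 := by positivity
  have e1 : (seg 1 p r) x = 1 - r + r * p x := by
    rw [seg_apply, one_apply hx, mul_one]
  have e2 : (DX (seg 1 p r)) x = r * (DX p) x := by
    rw [DX_seg, DX_one, seg_apply, zero_apply, mul_zero, zero_add]
  have e3 : (DX (DX (seg 1 p r))) x = r * (DX (DX p)) x := by
    rw [DX_seg, DX_one, DX_seg, map_zero, seg_apply, zero_apply, mul_zero, zero_add]
  unfold Wf wf
  rw [GG_real, e1, e2, e3]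
  have e4 : (-3 / 2 : ℂ) = (((-3 / 2 : ℝ)) : ℂ) := by push_cast; ring
  rw [e4, ← Complex.ofReal_cpow hG.le, rpow_aux hG]
  unfold NN PP
  push_cast
  ring

theorem dist_parts {z z' : ℝ × ℂ × ℂ × ℂ} {η : ℝ} (h : dist z z' < η) :
    |z.1 - z'.1| < η ∧ ‖z'.2.1 - z.2.1‖ < η ∧ ‖z'.2.2.2 - z.2.2.2‖ < η := by
  rw [Prod.dist_eq, max_lt_iff, Prod.dist_eq, max_lt_iff, Prod.dist_eq, max_lt_iff] at h
  obtain ⟨h1, h2, h3, h4⟩ := h
  rw [Real.dist_eq] at h1
  rw [dist_comm, dist_eq_norm] at h2 h4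
  exact ⟨h1, h2, h4⟩

theorem norm_parts {z : ℝ × ℂ × ℂ × ℂ} {b : ℝ} (h : ‖z‖ ≤ b) : ‖z.2.1‖ ≤ b ∧ ‖z.2.2.1‖ ≤ b := by
  have h2 := (norm_snd_le z).trans h
  exact ⟨(norm_fst_le _).trans h2, (norm_fst_le _).trans ((norm_snd_le _).trans h2)⟩

/-- functions which agree off the origin -/
theorem SmallMult.congr {ε : ℝ} {f f' : ℍ → ℝ} (h : SmallMult ε f) (he : ∀ x : ℍ, x ≠ 0 → f' x = f x) :
    SmallMult ε f' := by
  obtain ⟨h1, h2, h3, g, h4, h5, h6⟩ := h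
  refine ⟨⟨h1.cont.congr fun x hx => he x hx, fun r x hr hx => ?_⟩, ⟨fun x => ?_, fun x => ?_⟩,
    fun x hx => ?_, g, h4, h5, fun x hx t => ?_⟩
  · rw [he x hx, he _ (smul_ne_zero hr hx), h1.hom r x hr hx]
  · by_cases hx : x = 0
    · subst hx; rw [zero_mul]
    · rw [he x hx, he _ ((mul_ne_zero_right qI_ne_zero).2 hx), h2.mulI]
  · by_cases hx : x = 0
    · subst hx; rw [zero_mul]
    · rw [he x hx, he _ ((mul_ne_zero_right qK_ne_zero).2 hx), h2.mulK]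
  · rw [he x hx]; exact h3 x hx
  · refine (h6 x hx t).congr_of_eventuallyEq (Eventually.of_forall fun u => ?_)
    exact he _ (rrot_ne_zero isImUnit_I hx u)

/-- the complex weight -/
def CW (p : SF) (s : ℂ) (x : ℍ) : ℂ := Wf s (p x) ((DX p) x) ((DX (DX p)) x)
/-- its derivative in `s` -/
def CW1 (p : SF) (s : ℂ) (x : ℍ) : ℂ := W1f s (p x) ((DX p) x) ((DX (DX p)) x)
/-- its derivative along `x rot(i,t)` -/
def CWV (p : SF) (s : ℂ) (x : ℍ) : ℂ :=
  WVf s (p x) ((DX p) x) ((DX (DX p)) x) ((DV (DX p)) x) ((DV (DX (DX p))) x)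

/-- the positivity condition -/
def Pos (p : SF) (s : ℂ) : Prop := ∀ x : ℍ, x ≠ 0 → 0 < (GG s (p x) ((DX p) x)).re

theorem CW_cont {p : SF} {s : ℂ} (h : Pos p s) : ContinuousOn (CW p s) {0}ᶜ ∧
    ContinuousOn (CW1 p s) {0}ᶜ ∧ ContinuousOn (CWV p s) {0}ᶜ := by
  have key : ContinuousOn (fun x => Phi (s, kap p x)) {0}ᶜ := by
    intro x hx
    have h1 : ContinuousAt Phi (s, kap p x) := continuousAt_Phi (h x hx)
    have h2 : ContinuousWithinAt (fun x => (s, kap p x)) {0}ᶜ x :=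
      continuousWithinAt_const.prodMk (kap_continuousOn p x hx)
    exact ContinuousAt.comp_continuousWithinAt (f := fun x => (s, kap p x)) (g := Phi) h1 h2
  exact ⟨(continuous_fst.comp continuous_snd).comp_continuousOn key,
    (continuous_fst.comp (continuous_snd.comp continuous_snd)).comp_continuousOn key,
    (continuous_snd.comp (continuous_snd.comp continuous_snd)).comp_continuousOn key⟩

theorem CW_mulI {p : SF} (hp : IsU p) (s : ℂ) (x : ℍ) : CW p s (x * qI) = CW p s x := by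
  unfold CW
  rw [IsU.mulI hp, DX_mulI (IsU.mulI hp), DXDX_mulI (IsU.mulI hp)]
  unfold Wf GG
  push_cast
  rw [mul_neg, neg_sq]

theorem CW_mulK {p : SF} (hp : IsU p) (s : ℂ) (x : ℍ) : CW p s (x * qK) = CW p s x := by
  unfold CW
  rw [hp.mulK, DX_mulK hp.mulK, DX_mulK (DX_mulK hp.mulK)]

theorem CW_deriv {p : SF} (hp : IsU p) {s : ℂ} (h : Pos p s) {x : ℍ} (hx : x ≠ 0) (t : ℝ) :
    HasDerivAt (fun t => CW p s (x * rot qI t)) (CWV p s (x * rot qI t)) t := by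
  have h1 := hasDerivAt_DV (DX p) hx t
  have h2 := hasDerivAt_DV (DX (DX p)) hx t
  have h3 := hasDerivAt_Wf_t (s := s) (a := p x) h1 h2 (by
    have := h (x * rot qI t) (rrot_ne_zero isImUnit_I hx t)
    rwa [hp.rotI] at this)
  unfold CW CWV
  rw [hp.rotI]
  refine h3.congr_of_eventuallyEq (Eventually.of_forall fun u => ?_)
  simp only [hp.rotI]

/-- the difference of two weights, composed with a real-linear form of norm at most one -/
theorem smallMult_diff {p : SF} (hp : IsU p) {s s' : ℂ} (h : Pos p s) (h' : Pos p s')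
    (L : ℂ →L[ℝ] ℝ) (hL : ∀ z, |L z| ≤ ‖z‖) {ε : ℝ}
    (h1 : ∀ x : ℍ, x ≠ 0 → ‖CW p s x - CW p s' x‖ ≤ ε)
    (h2 : ∀ x : ℍ, x ≠ 0 → ‖CWV p s x - CWV p s' x‖ ≤ ε) :
    SmallMult ε (fun x => L (CW p s x - CW p s' x)) := by
  refine ⟨⟨?_, ?_⟩, ⟨?_, ?_⟩, ?_, fun x => L (CWV p s x - CWV p s' x), ⟨?_, ?_⟩, ?_, ?_⟩
  · exact L.continuous.comp_continuousOn ((CW_cont h).1.sub (CW_cont h').1)
  · intro r x hr _
    simp only [CW, SF.hom _ hr]
  · intro x
    rw [CW_mulI hp, CW_mulI hp]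
  · intro x
    rw [CW_mulK hp, CW_mulK hp]
  · intro x hx
    exact (hL _).trans (h1 x hx)
  · exact L.continuous.comp_continuousOn ((CW_cont h).2.2.sub (CW_cont h').2.2)
  · intro r x hr _
    simp only [CWV, SF.hom _ hr]
  · intro x hx
    exact (hL _).trans (h2 x hx)
  · intro x hx t
    have h3 := (CW_deriv hp h hx t).sub (CW_deriv hp h' hx t)
    exact L.hasFDerivAt.comp_hasDerivAt t h3

theorem unif {p : SF} (hp : Adm p) {ε : ℝ} (hε : 0 < ε) : ∃ δ : ℝ, 0 < δ ∧ ∃ B : ℝ,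
    ∀ s : ℂ, ∀ r ∈ Icc (0:ℝ) 1, dist s r < δ → ∀ x : ℍ, x ≠ 0 →
      0 < (GG s (p x) ((DX p) x)).re ∧ ‖CW p s x‖ ≤ B ∧ ‖CW1 p s x‖ ≤ B ∧
      ‖CW p s x - CW p r x‖ ≤ ε ∧ ‖CWV p s x - CWV p r x‖ ≤ ε := by
  have hC := isCompact_KK p
  have hcont : ∀ z ∈ KK p, ContinuousAt Phi z := fun z hz => continuousAt_Phi (GG_pos hp z hz)
  have hcontOn : ContinuousOn Phi (KK p) := fun z hz => (hcont z hz).continuousWithinAt
  obtain ⟨m, hm, hmin⟩ := hC.exists_forall_le' (f := fun z => (Phi z).1)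
    (continuous_fst.comp_continuousOn hcontOn) (a := 0) (GG_pos hp)
  obtain ⟨B, hB⟩ := hC.exists_bound_of_continuousOn hcontOn
  have hη0 : 0 < min m ε := lt_min hm hε
  have hu := hC.uniformContinuousAt_of_continuousAt Phi hcont (Metric.dist_mem_uniformity hη0)
  rw [Metric.mem_uniformity_dist] at hu
  obtain ⟨δ, hδ, hu⟩ := hu
  refine ⟨δ, hδ, B + min m ε, fun s r hr hs x hx => ?_⟩
  have hd : dist ((r : ℂ), kap p x) (s, kap p x) < δ := by
    rw [Prod.dist_eq, dist_self, dist_comm]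
    exact max_lt hs hδ
  have hk : dist (Phi ((r : ℂ), kap p x)) (Phi (s, kap p x)) < min m ε :=
    hu hd (mem_KK p hr hx)
  obtain ⟨h1, h2, h3⟩ := dist_parts hk
  have h4 := hmin _ (mem_KK p hr hx)
  have h5 := hB _ (mem_KK p hr hx)
  have h6 : ‖Phi (s, kap p x)‖ ≤ B + min m ε := by
    have e2 := hk
    rw [dist_comm, dist_eq_norm] at e2
    have e3 := norm_le_norm_add_norm_sub' (Phi (s, kap p x)) (Phi ((r : ℂ), kap p x))
    linarith
  obtain ⟨h7, h8⟩ := norm_parts h6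
  have h9 : 0 < (Phi (s, kap p x)).1 := by
    have e1 := (abs_lt.mp h1).2
    have e3 : min m ε ≤ m := min_le_left _ _
    linarith
  exact ⟨h9, h7, h8, h2.le.trans (min_le_right _ _), h3.le.trans (min_le_right _ _)⟩

/-- CWEIGHT -/
theorem cweight_holds : CWeightStatement := by
  intro p hp ε hε
  obtain ⟨δ, hδ, B, h⟩ := unif hp hε
  have hposr : ∀ r ∈ Icc (0:ℝ) 1, Pos p (r : ℂ) := fun r hr x hx =>
    (h r r hr (by rw [dist_self]; exact hδ) x hx).1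
  refine ⟨δ, hδ, CW p, CW1 p, B, ?_, fun s hs x hx => Wf_real hp hs hx⟩
  intro s hs
  rw [cnbhd, Metric.mem_thickening_iff] at hs
  obtain ⟨_, ⟨r, hr, rfl⟩, hsr⟩ := hs
  have hk := h s r hr hsr
  have hpos : Pos p s := fun x hx => (hk x hx).1
  have h1 : ∀ x : ℍ, x ≠ 0 → CW p r x = (wf (seg 1 p r) x : ℂ) := fun x hx => Wf_real hp hr hx
  refine ⟨fun x hx => ⟨hasDerivAt_Wf_s (hpos x hx), (hk x hx).2.1, (hk x hx).2.2.1⟩,
    (CW_cont hpos).1, (CW_cont hpos).2.1, r, hr, ?_, ?_⟩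
  · refine SmallMult.congr (smallMult_diff hp.isU hpos (hposr r hr) Complex.reCLM
      (fun z => Complex.abs_re_le_norm z) (fun x hx => (hk x hx).2.2.2.1)
      (fun x hx => (hk x hx).2.2.2.2)) ?_
    intro x hx
    rw [h1 x hx, Complex.reCLM_apply, Complex.sub_re, Complex.ofReal_re]
  · refine SmallMult.congr (smallMult_diff hp.isU hpos (hposr r hr) Complex.imCLM
      (fun z => Complex.abs_im_le_norm z) (fun x hx => (hk x hx).2.2.2.1)
      (fun x hx => (hk x hx).2.2.2.2)) ?_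
    intro x hx
    rw [h1 x hx, Complex.imCLM_apply, Complex.sub_im, Complex.ofReal_im, sub_zero]

end

end Pool.Agent.MP85963d.H5
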